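import Pool.Agent.H88KTri.Three

/-!
The flip graph of k-triangulations of the convex n-gon has the property that no shortest path
flips a common chord of its two ends if and only if k is at most 1 or n is at most 2k + 3.
-/

namespace Pool.Agent.Results.MP_1d99bd_co.Classification

open Pool.Agent.H88KTri

theorem result (k n : ℕ) :
    (∀ (T U : {T : Set (ℕ × ℕ) // IsKTri n k T}) (w : (flipGraph n k).Walk T U),
      w.length = (flipGraph n k).dist T U → ∀ X ∈ w.support, T.1 ∩ U.1 ⊆ X.1) ↔
      (k ≤ 1 ∨ n ≤ 2 * k + 3) :=
  classification k n

end Pool.Agent.Results.MP_1d99bd_co.Classification
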