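import Pool.Agent.H88KTri.Short

/-!
For k at least 2 and m = n - 2k at least 4 there are two k-triangulations of the convex n-gon at
flip distance m, while the shortest flip path between them that keeps all their common chords has
length 3m/2 - 2 (rounded down).
-/

namespace Pool.Agent.Results.MP_1d99bd_co.ForcedFlips

open Pool.Agent.H88KTri

theorem result (k n : ℕ) (hk : 2 ≤ k) (hn : 2 * k + 4 ≤ n) :
    ∃ T U : {T : Set (ℕ × ℕ) // IsKTri n k T},
      (flipGraph n k).dist T U = n - 2 * k ∧
      IsLeast {l : ℕ | ∃ w : (flipGraph n k).Walk T U,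
        (∀ X ∈ w.support, T.1 ∩ U.1 ⊆ X.1) ∧ w.length = l} (3 * (n - 2 * k) / 2 - 2) :=
  main k n hk hn

end Pool.Agent.Results.MP_1d99bd_co.ForcedFlips
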