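import Pool.Agent.FS.GoodFlip.Main

/-!
In the flip graph of k-triangulations of the convex n-gon, every flip that gains a chord in common
with the target can start a shortest path if and only if k is at most 1 or n is at most 2k + 3.
-/

namespace Pool.Agent.Results.MP_1d99bd_co.GoodFlips

open Pool.Agent.H88KTri

theorem result (k n : ℕ) :
    (∀ (T U Y : {T : Set (ℕ × ℕ) // IsKTri n k T}) (w : (flipGraph n k).Walk T U),
      (flipGraph n k).Adj T Y → T.1 ∩ U.1 ⊂ Y.1 ∩ U.1 →
        ∃ p : (flipGraph n k).Walk Y U, p.length + 1 ≤ w.length) ↔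
      (k ≤ 1 ∨ n ≤ 2 * k + 3) :=
  Pool.Agent.FS.GoodFlip.gd_iff k n

end Pool.Agent.Results.MP_1d99bd_co.GoodFlips
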